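import Pool.Agent.V8H30.OC.Pencil

/-!
# MP_020e9d_co, Q1: arrangements of orthogonal circles with more than `3 n - 3` triangular faces

All definitions are in `Pool/Agent/V8H30/OC/Defs.lean` (`circ`, `Orth`, `IsArr`, `curves`,
`crossings`, `IsFace`, `IsArc`, `Triangular`) and `Pool/Agent/V8H30/OC/Final.lean` (`AtLeast`).
`AtLeast n t` says that `t ≤ t(n)` in the notation of the problem.
-/

set_option autoImplicit false

namespace Pool.Agent.Results.MP_020e9d_co.ManyTriangularFaces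

open Pool.Agent.V8H30.OC

theorem result :
    (∀ n : ℕ, n = 14 ∨ n = 18 ∨ n = 19 ∨ 22 ≤ n → AtLeast n (3 * n - 2)) ∧
    (∀ n : ℕ, 170 ≤ n → ∃ t : ℕ,
      (32 / 9 : ℝ) * n - (40 / 9) * Real.sqrt n - 100 / 9 ≤ t ∧ AtLeast n t) ∧
    (∀ S : Finset (ℂ × ℝ), IsArr S → ∀ Y : Finset ℂ, (∀ p ∈ Y, p ∈ crossings S) →
      AtLeast (S.card + Y.card) (4 * Y.card)) := by
  refine ⟨fun n hn => more' hn, fun n hn => asym hn, ?_⟩
  intro S hS Y hY
  obtain ⟨S', h1, h2, F, h3, h4⟩ := extend hS Y hY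
  exact ⟨S', h1, h2, F, h3, h4⟩

end Pool.Agent.Results.MP_020e9d_co.ManyTriangularFaces
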